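import Pool.Agent.Helper49.LT.StB

/-!
# Project LT, module SOF
-/

open MeasureTheory Set Filter Metric Topology

namespace Pool.Agent.Helper54.LT

open Helper49.LT Helper97.CB

/-- Restriction of a `C⁴` function to a line. -/
theorem sof_line {E : Type} [NormedAddCommGroup E] [NormedSpace ℝ E] {f : E → ℝ} {r : ℝ}
    (hf : ContDiffOn ℝ 4 f (ball 0 r)) (v h : E) (hh : ‖h‖ = 1) (t : ℝ)
    (ht : v + t • h ∈ ball (0 : E) r) :
    ContDiffAt ℝ 4 (fun τ : ℝ => f (v + τ • h)) t ∧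
      ‖iteratedDeriv 4 (fun τ : ℝ => f (v + τ • h)) t‖ ≤ ‖iteratedFDeriv ℝ 4 f (v + t • h)‖ := by
  set F : E → ℝ := fun z => f (v + z) with hF
  set s : Set E := {z | v + z ∈ ball (0 : E) r} with hs
  have hso : IsOpen s := isOpen_ball.preimage (by fun_prop)
  have hFs : ContDiffOn ℝ 4 F s := hf.comp (by fun_prop) (fun z hz => hz)
  set g : ℝ →L[ℝ] E := ContinuousLinearMap.toSpanSingleton ℝ h with hg
  have hgt : g t = t • h := by simp [hg]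
  have hgs : g t ∈ s := by rw [hgt]; exact ht
  have hpre : IsOpen (g ⁻¹' s) := hso.preimage g.continuous
  have hcomp : (fun τ : ℝ => f (v + τ • h)) = F ∘ g := by ext τ; simp [hF, hg]
  constructor
  · rw [hcomp]
    exact (hFs.contDiffAt (hso.mem_nhds hgs)).comp t g.contDiff.contDiffAt
  · rw [← norm_iteratedFDeriv_eq_norm_iteratedDeriv, hcomp,
      ← iteratedFDerivWithin_of_isOpen 4 hpre hgs,
      g.iteratedFDerivWithin_comp_right hFs hso.uniqueDiffOn hpre.uniqueDiffOn hgs le_rfl,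
      iteratedFDerivWithin_of_isOpen 4 hso hgs, hF, iteratedFDeriv_comp_add_left, hgt]
    refine (ContinuousMultilinearMap.norm_compContinuousLinearMap_le _ _).trans ?_
    have hgn : ‖g‖ = 1 := by rw [hg, ContinuousLinearMap.norm_toSpanSingleton, hh]
    simp [hgn]

/-- The fourth derivative is bounded near `0`. -/
theorem sof_bound {E : Type} [NormedAddCommGroup E] [NormedSpace ℝ E] {f : E → ℝ} {r : ℝ}
    (hr : 0 < r) (hf : ContDiffOn ℝ 4 f (ball 0 r)) :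
    ∃ M δ : ℝ, 0 ≤ M ∧ 0 < δ ∧ δ ≤ r ∧ δ ≤ 1 ∧
      ∀ w ∈ ball (0 : E) δ, ‖iteratedFDeriv ℝ 4 f w‖ ≤ M := by
  have hc : ContinuousOn (iteratedFDerivWithin ℝ 4 f (ball 0 r)) (ball 0 r) :=
    hf.continuousOn_iteratedFDerivWithin le_rfl isOpen_ball.uniqueDiffOn
  have h0 : (0 : E) ∈ ball (0 : E) r := mem_ball_self hr
  have hc0 : ContinuousAt (iteratedFDerivWithin ℝ 4 f (ball 0 r)) 0 :=
    hc.continuousAt (isOpen_ball.mem_nhds h0)
  have hev : ∀ᶠ w in 𝓝 (0 : E), ‖iteratedFDerivWithin ℝ 4 f (ball 0 r) w‖ <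
      ‖iteratedFDerivWithin ℝ 4 f (ball 0 r) 0‖ + 1 :=
    hc0.norm.eventually_lt_const (by linarith)
  obtain ⟨ε, hε, hεb⟩ := Metric.eventually_nhds_iff_ball.1 hev
  refine ⟨‖iteratedFDerivWithin ℝ 4 f (ball 0 r) 0‖ + 1, min ε (min r 1), by positivity,
    lt_min hε (lt_min hr one_pos), (min_le_right _ _).trans (min_le_left _ _),
    (min_le_right _ _).trans (min_le_right _ _), ?_⟩
  intro w hw
  have hwε : w ∈ ball (0 : E) ε := ball_subset_ball (min_le_left _ _) hw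
  have hwr : w ∈ ball (0 : E) r :=
    ball_subset_ball ((min_le_right _ _).trans (min_le_left _ _)) hw
  rw [← iteratedFDerivWithin_of_isOpen 4 isOpen_ball hwr]
  exact (hεb w hwε).le

/-- Finite differences. -/
theorem sof_diff {g : ℝ → ℝ} {ρ M A : ℝ} (hρ : 0 < ρ)
    (hg : ∀ t ∈ Icc (0 : ℝ) (3 * ρ), ContDiffAt ℝ 4 g t)
    (hM : ∀ t ∈ Icc (0 : ℝ) (3 * ρ), ‖iteratedDeriv 4 g t‖ ≤ M)
    (hA : ∀ t ∈ Icc (0 : ℝ) (3 * ρ), |g t| ≤ A) :
    |deriv g 0| * ρ ≤ 9 * M * ρ ^ 4 + 7 * A := by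
  have hab : (0 : ℝ) ≤ 3 * ρ := by positivity
  have h3 : (0 : ℝ) < 3 * ρ := by positivity
  have hu : UniqueDiffOn ℝ (Icc (0 : ℝ) (3 * ρ)) := uniqueDiffOn_Icc h3
  have hgo : ContDiffOn ℝ (3 + 1) g (Icc 0 (3 * ρ)) := fun t ht => by
    have := (hg t ht).contDiffWithinAt (s := Icc 0 (3 * ρ))
    norm_num
    exact this
  have hMw : ∀ y ∈ Icc (0 : ℝ) (3 * ρ),
      ‖iteratedDerivWithin (3 + 1) g (Icc 0 (3 * ρ)) y‖ ≤ M := fun y hy => by
    rw [iteratedDerivWithin_eq_iteratedDeriv hu (by exact_mod_cast hg y hy) hy]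
    exact hM y hy
  have hT : ∀ x ∈ Icc (0 : ℝ) (3 * ρ),
      ‖g x - taylorWithinEval g 3 (Icc 0 (3 * ρ)) 0 x‖ ≤ M * (x - 0) ^ (3 + 1) / (Nat.factorial 3) :=
    fun x hx => taylor_mean_remainder_bound hab (by exact_mod_cast hgo) hx hMw
  have h0 : (0 : ℝ) ∈ Icc (0 : ℝ) (3 * ρ) := ⟨le_rfl, hab⟩
  have hd : iteratedDerivWithin 1 g (Icc 0 (3 * ρ)) 0 = deriv g 0 := by
    rw [iteratedDerivWithin_one]
    exact ((hg 0 h0).differentiableAt (by norm_num)).derivWithin (hu 0 h0)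
  have hf3 : ((Nat.factorial 3 : ℕ) : ℝ) = 6 := by norm_num [Nat.factorial]
  set a := iteratedDerivWithin 2 g (Icc 0 (3 * ρ)) 0 with ha
  set b := iteratedDerivWithin 3 g (Icc 0 (3 * ρ)) 0 with hb
  have hTe : ∀ x, taylorWithinEval g 3 (Icc 0 (3 * ρ)) 0 x =
      g 0 + deriv g 0 * x + a * x ^ 2 / 2 + b * x ^ 3 / 6 := by
    intro x
    rw [taylorWithinEval_succ, taylorWithinEval_succ, taylorWithinEval_succ,
      taylor_within_zero_eval, hd, ← ha, ← hb]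
    norm_num [Nat.factorial]
    ring
  have e1 := hT ρ ⟨hρ.le, by linarith⟩
  have e2 := hT (2 * ρ) ⟨by positivity, by linarith⟩
  have e3 := hT (3 * ρ) ⟨by positivity, le_rfl⟩
  rw [hTe, hf3, Real.norm_eq_abs, sub_zero, abs_le] at e1 e2 e3
  have b0 := abs_le.1 (hA 0 h0)
  have b1 := abs_le.1 (hA ρ ⟨hρ.le, by linarith⟩)
  have b2 := abs_le.1 (hA (2 * ρ) ⟨by positivity, by linarith⟩)
  have b3 := abs_le.1 (hA (3 * ρ) ⟨by positivity, le_rfl⟩)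
  rw [← abs_of_pos hρ, ← abs_mul, abs_of_pos hρ, abs_le]
  constructor <;> nlinarith [e1.1, e1.2, e2.1, e2.2, e3.1, e3.2]

/-- The derivative at `v` bounded by a power of any `ρ > ‖v‖`. -/
theorem sof_pt {E : Type} [NormedAddCommGroup E] [NormedSpace ℝ E] {f : E → ℝ} {r C M δ : ℝ}
    {m : ℕ} (hm1 : 1 ≤ m) (hm : m ≤ 4) (hf : ContDiffOn ℝ 4 f (ball 0 r))
    (hC : ∀ v ∈ ball (0 : E) r, |f v| ≤ C * ‖v‖ ^ m) (hM0 : 0 ≤ M) (hδr : δ ≤ r) (hδ1 : δ ≤ 1)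
    (hM : ∀ w ∈ ball (0 : E) δ, ‖iteratedFDeriv ℝ 4 f w‖ ≤ M) (v : E) (ρ : ℝ) (hv : ‖v‖ ≤ ρ)
    (hρ : 0 < ρ) (hρδ : 4 * ρ < δ) :
    ‖fderiv ℝ f v‖ ≤ (9 * M + 1792 * |C|) * ρ ^ (m - 1) := by
  have hcoef : (0 : ℝ) ≤ (9 * M + 1792 * |C|) * ρ ^ (m - 1) := by positivity
  refine ContinuousLinearMap.opNorm_le_of_unit_norm hcoef ?_
  intro h hh
  have hin : ∀ t ∈ Icc (0 : ℝ) (3 * ρ), v + t • h ∈ ball (0 : E) δ ∧ ‖v + t • h‖ ≤ 4 * ρ := by
    intro t ht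
    have h1 : ‖v + t • h‖ ≤ 4 * ρ := by
      refine (norm_add_le _ _).trans ?_
      rw [norm_smul, hh, mul_one, Real.norm_eq_abs, abs_of_nonneg ht.1]
      linarith [ht.2]
    exact ⟨by rw [mem_ball_zero_iff]; linarith, h1⟩
  have hball : ∀ t ∈ Icc (0 : ℝ) (3 * ρ), v + t • h ∈ ball (0 : E) r := fun t ht =>
    ball_subset_ball hδr (hin t ht).1
  have key := sof_diff (g := fun τ : ℝ => f (v + τ • h)) (M := M) (A := |C| * (4 * ρ) ^ m) hρ
    (fun t ht => (sof_line hf v h hh t (hball t ht)).1)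
    (fun t ht => ((sof_line hf v h hh t (hball t ht)).2).trans (hM _ (hin t ht).1))
    (fun t ht => by
      refine (hC _ (hball t ht)).trans ?_
      refine (mul_le_mul_of_nonneg_right (le_abs_self C) (by positivity)).trans ?_
      exact mul_le_mul_of_nonneg_left (pow_le_pow_left₀ (norm_nonneg _) (hin t ht).2 m)
        (abs_nonneg C))
  have h0 : (0 : ℝ) ∈ Icc (0 : ℝ) (3 * ρ) := ⟨le_rfl, by positivity⟩
  have hvr : v ∈ ball (0 : E) r := by simpa using hball 0 h0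
  have hder : deriv (fun τ : ℝ => f (v + τ • h)) 0 = fderiv ℝ f v h := by
    have hfd : HasFDerivAt f (fderiv ℝ f v) (v + (0 : ℝ) • h) := by
      rw [zero_smul, add_zero]
      exact ((hf.contDiffAt (isOpen_ball.mem_nhds hvr)).differentiableAt (by norm_num)).hasFDerivAt
    have hl : HasDerivAt (fun τ : ℝ => v + τ • h) h 0 := by
      simpa using ((hasDerivAt_id (0 : ℝ)).smul_const h).const_add v
    exact (hfd.comp_hasDerivAt (0 : ℝ) hl).deriv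
  rw [hder] at key
  rw [Real.norm_eq_abs]
  have hρ1 : ρ ≤ 1 := by linarith
  have hp : ρ ^ 4 ≤ ρ ^ m := pow_le_pow_of_le_one hρ.le hρ1 hm
  have hpm : ρ ^ m = ρ ^ (m - 1) * ρ := by
    rw [← pow_succ]; congr 1; omega
  have h4m : (4 : ℝ) ^ m ≤ 256 := by
    calc (4 : ℝ) ^ m ≤ 4 ^ 4 := pow_le_pow_right₀ (by norm_num) hm
      _ = 256 := by norm_num
  have hfin : |fderiv ℝ f v h| * ρ ≤ ((9 * M + 1792 * |C|) * ρ ^ (m - 1)) * ρ := by
    refine key.trans ?_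
    rw [mul_pow, mul_assoc _ (ρ ^ (m - 1)) ρ, ← hpm]
    have hc := abs_nonneg C
    have hρm : 0 ≤ ρ ^ m := by positivity
    have i1 : 9 * M * ρ ^ 4 ≤ 9 * M * ρ ^ m := mul_le_mul_of_nonneg_left hp (by positivity)
    have i2 : |C| * (4 ^ m * ρ ^ m) ≤ |C| * (256 * ρ ^ m) :=
      mul_le_mul_of_nonneg_left (mul_le_mul_of_nonneg_right h4m hρm) hc
    nlinarith
  exact le_of_mul_le_mul_right hfin hρ

theorem hSOF : StSof := by
  intro E _ _ f r C m hr hm2 hm4 hf hC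
  obtain ⟨M, δ, hM0, hδ, hδr, hδ1, hM⟩ := sof_bound hr hf
  set C' : ℝ := 9 * M + 1792 * |C| with hC'
  have hC'0 : 0 ≤ C' := by positivity
  have hr' : (0 : ℝ) < δ / 5 := by positivity
  have hle : δ / 5 ≤ r := by linarith
  have hmain : ∀ v ∈ ball (0 : E) (δ / 5), ‖fderiv ℝ f v‖ ≤ C' * ‖v‖ ^ (m - 1) := by
    intro v hv
    rw [mem_ball_zero_iff] at hv
    have hcont : Tendsto (fun ρ : ℝ => C' * ρ ^ (m - 1)) (𝓝[>] ‖v‖) (𝓝 (C' * ‖v‖ ^ (m - 1))) :=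
      ((continuous_const.mul (continuous_pow (m - 1))).tendsto _).mono_left nhdsWithin_le_nhds
    refine ge_of_tendsto hcont ?_
    have hI : Ioo ‖v‖ (δ / 5) ∈ 𝓝[>] ‖v‖ := Ioo_mem_nhdsGT hv
    filter_upwards [hI] with ρ hρ
    exact sof_pt (by omega) hm4 hf hC hM0 hδr hδ1 hM v ρ hρ.1.le
      (lt_of_le_of_lt (norm_nonneg _) hρ.1) (by linarith [hρ.2])
  refine ⟨C', δ / 5, hC'0, hr', hle, hmain, ?_⟩
  intro v hv v' hv'
  set R : ℝ := max ‖v‖ ‖v'‖ with hR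
  have hRδ : R < δ / 5 := max_lt (mem_ball_zero_iff.1 hv) (mem_ball_zero_iff.1 hv')
  have hR0 : 0 ≤ R := (norm_nonneg v).trans (le_max_left _ _)
  have hin : ∀ x ∈ closedBall (0 : E) R, x ∈ ball (0 : E) (δ / 5) := fun x hx => by
    rw [mem_closedBall_zero_iff] at hx
    rw [mem_ball_zero_iff]
    exact lt_of_le_of_lt hx hRδ
  have hdiff : ∀ x ∈ closedBall (0 : E) R, DifferentiableAt ℝ f x := fun x hx =>
    (hf.contDiffAt (isOpen_ball.mem_nhds (ball_subset_ball hle (hin x hx)))).differentiableAt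
      (by norm_num)
  have hbd : ∀ x ∈ closedBall (0 : E) R, ‖fderiv ℝ f x‖ ≤ C' * R ^ (m - 1) := fun x hx =>
    (hmain x (hin x hx)).trans (mul_le_mul_of_nonneg_left
      (pow_le_pow_left₀ (norm_nonneg _) (mem_closedBall_zero_iff.1 hx) _) hC'0)
  have hmv := Convex.norm_image_sub_le_of_norm_fderiv_le (𝕜 := ℝ) hdiff hbd
    (convex_closedBall (0 : E) R)
    (mem_closedBall_zero_iff.2 (le_max_right ‖v‖ ‖v'‖) : v' ∈ closedBall (0 : E) R)
    (mem_closedBall_zero_iff.2 (le_max_left ‖v‖ ‖v'‖) : v ∈ closedBall (0 : E) R)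
  rw [Real.norm_eq_abs] at hmv
  refine hmv.trans ?_
  have hRs : R ≤ ‖v‖ + ‖v'‖ := max_le (by linarith [norm_nonneg v']) (by linarith [norm_nonneg v])
  have hpow : R ^ (m - 1) ≤ (‖v‖ + ‖v'‖) ^ (m - 1) := pow_le_pow_left₀ hR0 hRs _
  calc C' * R ^ (m - 1) * ‖v - v'‖ ≤ C' * (‖v‖ + ‖v'‖) ^ (m - 1) * ‖v - v'‖ :=
        mul_le_mul_of_nonneg_right (mul_le_mul_of_nonneg_left hpow hC'0) (norm_nonneg _)
    _ = C' * (‖v - v'‖ * (‖v‖ + ‖v'‖) ^ (m - 1)) := by ring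

end Pool.Agent.Helper54.LT
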